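import Pool.Agent.X35.GM.Seq2

/-!
# The Frobenius angles at `s` consecutive primes: all boxes, with square-root error against the finite-field model, for ALL
members near `α v_i` of all one-parameter families of elliptic curves, outside a set of `α` of small dimension
-/

set_option autoImplicit false

namespace Pool.Agent.Results.MP_29be01_nt.CurvesAlongSequences

open Finset Polynomial

/-- The number of the solutions `(x, y)` of `y² = x³ + A x + B` modulo `p`. -/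
def points (p : ℕ) (A B : ℤ) : ℕ :=
  ((range p ×ˢ range p).filter
    (fun xy : ℕ × ℕ => (p : ℤ) ∣ (xy.2 : ℤ) ^ 2 - ((xy.1 : ℤ) ^ 3 + A * xy.1 + B))).card

/-- The Frobenius angle in `[0, 1]` of the curve `y² = x³ + A x + B` at the prime `p`: it is `θ` with
`2 p ^ (1 / 2) cos (π θ) = p + 1 - #E(F_p) = p - points p A B`, and `1 / 2` if `p ∣ 2 (4 A³ + 27 B²)`. -/
noncomputable def angle (A B : ℤ) (p : ℕ) : ℝ :=
  if (p : ℤ) ∣ 2 * (4 * A ^ 3 + 27 * B ^ 2) then 1 / 2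
  else Real.arccos (((p : ℝ) - points p A B) / (2 * Real.sqrt p)) / Real.pi

open Classical in
/-- The number of the `k < K` such that the angles of the curve `y² = x³ + A x + B` at the `s` consecutive primes with the
numbers `k, ..., k + s - 1` (the primes are numbered from `0`) are in `I 0, ..., I (s - 1)`. -/
noncomputable def boxCount {s : ℕ} (A B : ℤ) (I : Fin s → Set ℝ) (K : ℕ) : ℕ :=
  ((range K).filter (fun k => ∀ i : Fin s, angle A B (Nat.nth Nat.Prime (k + i)) ∈ I i)).card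

open Classical in
/-- The proportion of the residues `t` modulo `p` for which the angle of `y² = x³ + a(t) x + b(t)` at `p` is in `S`. -/
noncomputable def proportion (a b : ℤ[X]) (p : ℕ) (S : Set ℝ) : ℝ :=
  ((range p).filter (fun t : ℕ => angle (a.eval (t : ℤ)) (b.eval (t : ℤ)) p ∈ S)).card / p

/-- The expected number: the sum over `k < K` of the product of the proportions at the `s` primes. -/
noncomputable def boxModel {s : ℕ} (a b : ℤ[X]) (I : Fin s → Set ℝ) (K : ℕ) : ℝ :=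
  ∑ k ∈ range K, ∏ i : Fin s, proportion a b (Nat.nth Nat.Prime (k + i)) (I i)

theorem points_congr (p : ℕ) {A A' B B' : ℤ} (hA : (p : ℤ) ∣ A - A') (hB : (p : ℤ) ∣ B - B') :
    points p A B = points p A' B' := by
  unfold points
  congr 1
  apply filter_congr
  intro xy _
  have h : (p : ℤ) ∣ ((xy.2 : ℤ) ^ 2 - ((xy.1 : ℤ) ^ 3 + A * xy.1 + B)) -
      ((xy.2 : ℤ) ^ 2 - ((xy.1 : ℤ) ^ 3 + A' * xy.1 + B')) := by
    have e : ((xy.2 : ℤ) ^ 2 - ((xy.1 : ℤ) ^ 3 + A * xy.1 + B)) -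
      ((xy.2 : ℤ) ^ 2 - ((xy.1 : ℤ) ^ 3 + A' * xy.1 + B')) = -((A - A') * xy.1 + (B - B')) := by ring
    rw [e]
    exact (dvd_add (hA.mul_right _) hB).neg_right
  exact (dvd_iff_dvd_of_dvd_sub h)

theorem angle_congr (p : ℕ) {A A' B B' : ℤ} (hA : (p : ℤ) ∣ A - A') (hB : (p : ℤ) ∣ B - B') :
    angle A B p = angle A' B' p := by
  unfold angle
  rw [points_congr p hA hB]
  have h : (p : ℤ) ∣ 2 * (4 * A ^ 3 + 27 * B ^ 2) - 2 * (4 * A' ^ 3 + 27 * B' ^ 2) := by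
    have e : 2 * (4 * A ^ 3 + 27 * B ^ 2) - 2 * (4 * A' ^ 3 + 27 * B' ^ 2) =
      (A - A') * (8 * (A ^ 2 + A * A' + A' ^ 2)) + (B - B') * (54 * (B + B')) := by ring
    rw [e]
    exact dvd_add (hA.mul_right _) (hB.mul_right _)
  have h2 := dvd_iff_dvd_of_dvd_sub h
  by_cases h3 : (p : ℤ) ∣ 2 * (4 * A ^ 3 + 27 * B ^ 2)
  · rw [if_pos h3, if_pos (h2.mp h3)]
  · rw [if_neg h3, if_neg (fun h4 => h3 (h2.mpr h4))]

/-- Let `s ≥ 1` and `δ > 0`. There are `κ > 0` and `C` such that for all reals `v_i ≥ 1` with `∑ v_i ^ (-t) < ∞` for all `t > τ`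
(`τ ≥ 0`; for example `v_i = 2 ^ i`, `τ = 0`, or `v_i = i ^ m`, `τ = 1 / m`) and all `θ < 1` there is a set `E` of reals of Hausdorff
dimension at most `(1 - κ + τ) / (1 - θ)` with the following property. For every real `α > 0` outside `E`, ALL polynomials
`a, b ∈ ℤ[T]`, all `i ≥ i₀(α, a, b)` and ALL integers `n` with `|n - α v_i| ≤ v_i ^ θ`: for every `K ≤ n ^ κ` and every product of
`s` intervals, the number of the `k < K` such that the angles of `y² = x³ + a(n) x + b(n)` at the `s` consecutive primes with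
the numbers `k, ..., k + s - 1` are in the intervals differs from the expected number by at most
`C K ^ (1 / 2 + δ) (1 + log n) ^ (1 / 2)`. -/
theorem result (s : ℕ) (hs : 1 ≤ s) (δ : ℝ) (hδ : 0 < δ) :
    ∃ κ C : ℝ, 0 < κ ∧ 0 < C ∧ ∀ (v : ℕ → ℝ) (τ θ : ℝ), (∀ i, 1 ≤ v i) → 0 ≤ τ → θ < 1 →
      (∀ t : ℝ, τ < t → Summable (fun i => v i ^ (-t))) →
      ∃ E : Set ℝ, dimH E ≤ ENNReal.ofReal ((1 - κ + τ) / (1 - θ)) ∧
        ∀ α : ℝ, 0 < α → α ∉ E → ∀ a b : ℤ[X], ∃ i₀ : ℕ, ∀ i : ℕ, i₀ ≤ i →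
          ∀ n : ℕ, |(n : ℝ) - α * v i| ≤ v i ^ θ → ∀ K : ℕ, (K : ℝ) ≤ (n : ℝ) ^ κ →
            ∀ I : Fin s → Set ℝ, (∀ j, (I j).OrdConnected) →
              |(boxCount (a.eval (n : ℤ)) (b.eval (n : ℤ)) I K : ℝ) - boxModel a b I K| ≤
                C * ((K : ℝ) ^ (1 / 2 + δ) * √(1 + Real.log n)) := by
  classical
  obtain ⟨κ, C, h1, _, h3, H⟩ := Pool.Agent.X35.GM.consecutive_seq s hs δ hδ
  refine ⟨κ, C, h1, by linarith, ?_⟩
  intro v τ θ hv1 hτ hθ hv
  have hc : Countable ℤ[X] := Pool.Agent.X35.GM.countable_int_poly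
  obtain ⟨E, hE1, hE2⟩ := H (fun (ab : ℤ[X] × ℤ[X]) p n => angle (ab.1.eval (n : ℤ)) (ab.2.eval (n : ℤ)) p) (by
    intro ab p n
    have e : ((n + p : ℕ) : ℤ) - (n : ℤ) = p := by push_cast; ring
    have hd : ∀ f : ℤ[X], (p : ℤ) ∣ f.eval ((n + p : ℕ) : ℤ) - f.eval (n : ℤ) := by
      intro f
      have := f.sub_dvd_eval_sub ((n + p : ℕ) : ℤ) (n : ℤ)
      rwa [e] at this
    exact angle_congr p (hd ab.1) (hd ab.2)) v τ θ hv1 hτ hθ hv
  refine ⟨E, hE1, fun α hα hαE a b => ?_⟩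
  obtain ⟨i₀, hi₀⟩ := hE2 α hα hαE (a, b)
  refine ⟨i₀, fun i hi n hn K hK I hI => ?_⟩
  have h := (hi₀ i hi n hn).2 K hK I hI
  rw [sum_sub_distrib] at h
  have e1 : (boxCount (a.eval (n : ℤ)) (b.eval (n : ℤ)) I K : ℝ) = ∑ k ∈ range K,
      Pool.Agent.TH869.SQ.ind I (fun i : Fin s =>
        angle (a.eval (n : ℤ)) (b.eval (n : ℤ)) (Pool.Agent.TH869.SQ.pr (k + i))) := by
    unfold boxCount Pool.Agent.TH869.SQ.ind Pool.Agent.TH869.SQ.pr
    rw [sum_boole]
  have e2 : boxModel a b I K = ∑ k ∈ range K, ∏ i : Fin s,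
      Pool.Agent.TH869.SQ.mean (Pool.Agent.TH869.SQ.pr (k + i)) (fun t =>
        Pool.Agent.TH869.SQ.ind1 (I i)
          (angle (a.eval (t : ℤ)) (b.eval (t : ℤ)) (Pool.Agent.TH869.SQ.pr (k + i)))) := by
    unfold boxModel proportion Pool.Agent.TH869.SQ.mean Pool.Agent.TH869.SQ.ind1
      Pool.Agent.TH869.SQ.pr
    refine sum_congr rfl fun k _ => prod_congr rfl fun i _ => ?_
    rw [sum_boole]
  rw [e1, e2]
  exact h

end Pool.Agent.Results.MP_29be01_nt.CurvesAlongSequences
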