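import Pool.Agent.X20.Tr.Dyad
import Pool.Agent.Results.MP_29be01_nt.ReflectedBoxes

/-!
# Consecutive Frobenius angles for the quadratic twists by `h ± ⌊α n ^ c⌋` of ALL elliptic curves

From Mathlib: `dimH E`: the Hausdorff dimension; `⌊x⌋₊`: the integer part; `Finset.Icc 1 N`: the integers from `1` to
`N`. From the team's `W406.TW`: `cons A B R K`: the number of `k < K` for which the angles (in `[0, 1]`) of the curve
`y ^ 2 = x ^ 3 + A x + B` at the consecutive primes `p_k, ..., p_(k + r - 1)` (`p_0 = 2`) lie in `R 0, ..., R (r - 1)`;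
`refl J R`: the box `R` with the coordinates in `J` reflected at `1 / 2`.
-/

set_option autoImplicit false

namespace Pool.Agent.Results.MP_29be01_nt.ReflectedBoxesSparseTwists

open Finset Filter
open Pool.Agent.X20.Tr
open Pool.Agent.W406.TW (cons refl)

/-- the twist `y ^ 2 = x ^ 3 + A D ^ 2 x + B D ^ 3` is exceptional: for some `K` between `(log |D|) ^ C` and `|D| ^ δ` and
some product `R` of `r` intervals the number of the `k < K` for which the angles at the `r` consecutive primes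
`p_k, ..., p_(k + r - 1)` are in `R` differs from the mean over the `2 ^ r` reflections of `R` of the numbers for the curve
`y ^ 2 = x ^ 3 + A x + B` by more than `K ^ (1 / 2 + ε)` -/
def Bad (r : ℕ) (A B : ℤ) (ε C δ : ℝ) (D : ℤ) : Prop :=
  D ≠ 0 ∧ ∃ K : ℕ, (Real.log |(D : ℝ)|) ^ C ≤ K ∧ (K : ℝ) ≤ |(D : ℝ)| ^ δ ∧
    ∃ R : Fin r → Set ℝ, (∀ i, (R i).OrdConnected) ∧
      (K : ℝ) ^ (1 / 2 + ε) < |(cons (A * D ^ 2) (B * D ^ 3) R K : ℝ) -
        (1 / 2 ^ r) * ∑ J : Finset (Fin r), (cons A B (refl J R) K : ℝ)|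

lemma Bad.mono {r : ℕ} {A B : ℤ} {ε ε' C δ δ' : ℝ} {D : ℤ} (h : Bad r A B ε C δ D) (hε' : 0 < ε') (hε : ε' ≤ ε)
    (hδ : δ ≤ δ') : Bad r A B ε' C δ' D := by
  obtain ⟨h0, K, h1, h2, R, h3, h4⟩ := h
  have hD : (1 : ℝ) ≤ |(D : ℝ)| := by
    rw [← Int.cast_abs]
    exact_mod_cast Int.one_le_abs h0
  refine ⟨h0, K, h1, h2.trans (Real.rpow_le_rpow_of_exponent_le hD hδ), R, h3, lt_of_le_of_lt ?_ h4⟩
  rcases Nat.eq_zero_or_pos K with rfl | hx
  · rw [Nat.cast_zero, Real.zero_rpow (by linarith), Real.zero_rpow (by linarith)]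
  · exact Real.rpow_le_rpow_of_exponent_le (by exact_mod_cast hx) (by linarith)

open Classical in
/-- For every real `c > 1` there are `κ > 0` and a set `E` of real numbers of Hausdorff dimension at most `1 - κ` such
that for all `r` and every `ε > 0` there are `C, δ > 0` such that for every real `α > 0` outside `E`, ALL integers `A`, `B`,
all integers `h` and both signs `s`: all but at most `N ^ (1 - δ)` of the `n ≤ N` (`N` large) have the property that
`D = h + s ⌊α n ^ c⌋` is not `Bad`, that is: for all `K` between `(log |D|) ^ C` and `|D| ^ δ` and all products `R` of `r`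
intervals, the number of the `k < K` for which the angles of the twist by `D` at the `r` consecutive primes
`p_k, ..., p_(k + r - 1)` lie in `R` is the mean over the `2 ^ r` reflections of `R` of the numbers for the curve itself,
with an error `K ^ (1 / 2 + ε)`. -/
theorem result (c : ℝ) (hc : 1 < c) : ∃ κ : ℝ, 0 < κ ∧ κ < 1 ∧ ∃ E : Set ℝ, dimH E ≤ ENNReal.ofReal (1 - κ) ∧
    ∀ (r : ℕ) (ε : ℝ), 0 < ε → ∃ C δ : ℝ, 0 < C ∧ 0 < δ ∧ ∀ α : ℝ, 0 < α → α ∉ E →
      ∀ A B h s : ℤ, (s = 1 ∨ s = -1) → ∃ N₀ : ℕ, ∀ N : ℕ, N₀ ≤ N →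
        (((Icc 1 N).filter (fun n : ℕ => Bad r A B ε C δ (h + s * ((⌊α * (n : ℝ) ^ c⌋₊ : ℕ) : ℤ)))).card : ℝ) ≤
          (N : ℝ) ^ (1 - δ) := by
  obtain ⟨κ, hκ0, hκ1, H⟩ := sparse_pow c hc
  have hin : ∀ k : ℕ, (0 : ℝ) < 1 / ((k : ℝ) + 1) := fun k => by positivity
  choose C d hC hd N₁ hN₁ using fun (r k : ℕ) => ReflectedBoxes.result r (1 / ((k : ℝ) + 1)) (hin k)
  obtain ⟨E, hE, hh⟩ := H ((ℤ × ℤ) × (ℕ × ℕ))
    (fun i D => Bad i.2.1 i.1.1 i.1.2 (1 / ((i.2.2 : ℝ) + 1)) (C i.2.1 i.2.2 + 1) (min (d i.2.1 i.2.2) (1 / 2)) D)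
  refine ⟨κ, hκ0, hκ1, E, hE, fun r ε hε => ?_⟩
  obtain ⟨k, hk⟩ := exists_nat_one_div_lt hε
  have hdk : 0 < min (d r k) (1 / 2) := lt_min (hd r k) (by norm_num)
  obtain ⟨δ, hδ⟩ : ∃ δ : ℝ, δ = min κ (min (d r k) (1 / 2)) / 4 := ⟨_, rfl⟩
  have hδ0 : 0 < δ := by rw [hδ]; exact div_pos (lt_min hκ0 hdk) (by norm_num)
  have h4κ : 4 * δ ≤ κ := by
    rw [hδ]
    linarith [min_le_left κ (min (d r k) (1 / 2))]
  have h4d : 4 * δ ≤ min (d r k) (1 / 2) := by
    rw [hδ]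
    linarith [min_le_right κ (min (d r k) (1 / 2))]
  refine ⟨C r k + 1, δ, by linarith [hC r k], hδ0, fun α hα hαE A B h s hs => ?_⟩
  obtain ⟨N₂, _, hN₂⟩ := log_range (C r k) (hC r k).le
  obtain ⟨N₀, hN₀⟩ := hh α hα hαE ((A, B), (r, k)) h s hs (min (d r k) (1 / 2)) 1 hdk (min_le_right _ _)
    ⟨max (max (N₁ r k) 1) N₂, fun N hN => by
      have hNa : N₁ r k ≤ N := (le_max_left _ _).trans ((le_max_left _ _).trans hN)
      have hNb : (1 : ℝ) ≤ N := by exact_mod_cast (le_max_right _ _).trans ((le_max_left _ _).trans hN)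
      have hNc := hN₂ N ((le_max_right _ _).trans hN)
      rw [one_mul]
      refine le_trans ?_ ((hN₁ r k N hNa A B).trans
        (Real.rpow_le_rpow_of_exponent_le hNb (by linarith [min_le_left (d r k) (1 / 2)])))
      have hfin : {D : ℤ | D ≠ 0 ∧ |D| ≤ N ∧ ∃ K : ℕ, (Real.log N) ^ C r k ≤ K ∧ (K : ℝ) ≤ (N : ℝ) ^ d r k ∧
          ∃ R : Fin r → Set ℝ, (∀ i, (R i).OrdConnected) ∧
            (K : ℝ) ^ (1 / 2 + 1 / ((k : ℝ) + 1)) < |(cons (A * D ^ 2) (B * D ^ 3) R K : ℝ) -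
              (1 / 2 ^ r) * ∑ J : Finset (Fin r), (cons A B (refl J R) K : ℝ)|}.Finite := by
        refine (Set.finite_Icc (-(N : ℤ)) N).subset fun D hD => ?_
        have := abs_le.1 hD.2.1
        exact ⟨this.1, this.2⟩
      rw [Nat.cast_le]
      refine Set.ncard_le_ncard ?_ hfin
      rintro D ⟨⟨h0, K, h1, h2, R, h3, h4⟩, h5, h6⟩
      have h5' : (N : ℝ) < 2 * |(D : ℝ)| := by
        rw [← Int.cast_abs]
        exact_mod_cast h5
      have h6' : |(D : ℝ)| ≤ N := by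
        rw [← Int.cast_abs]
        exact_mod_cast h6
      refine ⟨h0, h6, K, (hNc _ h5').trans h1, h2.trans ?_, R, h3, h4⟩
      have hD : (1 : ℝ) ≤ |(D : ℝ)| := by
        rw [← Int.cast_abs]
        exact_mod_cast Int.one_le_abs h0
      calc |(D : ℝ)| ^ min (d r k) (1 / 2) ≤ |(D : ℝ)| ^ d r k :=
            Real.rpow_le_rpow_of_exponent_le hD (min_le_left _ _)
        _ ≤ (N : ℝ) ^ d r k := Real.rpow_le_rpow (abs_nonneg _) h6' (hd r k).le⟩
    δ hδ0.le (by linarith) (by linarith)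
  refine ⟨N₀, fun N hN => le_trans ?_ (hN₀ N hN)⟩
  rw [Nat.cast_le]
  refine card_le_card fun n hn => ?_
  rw [mem_filter] at hn ⊢
  exact ⟨hn.1, hn.2.mono (hin k) hk.le (by linarith)⟩

end Pool.Agent.Results.MP_29be01_nt.ReflectedBoxesSparseTwists
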