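import Pool.Agent.X20.Tr.Dyad
import Pool.Agent.X20.Tr.Sqf
import Pool.Agent.Results.MP_29be01_nt.PolynomialFamilies

/-!
# The Frobenius angles at consecutive primes of the elliptic curves `y ^ 2 = x ^ 3 + a(m) x + b(m)`, `m = ⌊α n ^ c⌋`

From Mathlib: `dimH E`: the Hausdorff dimension; `⌊x⌋₊`: the integer part; `Finset.Icc 1 N`: the integers from `1` to
`N`. From the team's `PolynomialFamilies`: `points p A B`: the number of the solutions of `y ^ 2 = x ^ 3 + A x + B` modulo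
`p`; `angle A B p`: its Frobenius angle in `[0, 1]` (`1 / 2` if `p ∣ 2 (4 A ^ 3 + 27 B ^ 2)`); `boxCount A B I K`: the number
of the `k < K` such that the angles at the `r` consecutive primes with the numbers `k, ..., k + r - 1` are in
`I 0, ..., I (r - 1)`; `proportion a b p S`: the proportion of the residues `t` modulo `p` for which the angle of
`y ^ 2 = x ^ 3 + a(t) x + b(t)` is in `S`; `boxModel a b I K`: the sum over `k < K` of the product of the proportions at the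
`r` primes.
-/

set_option autoImplicit false

namespace Pool.Agent.Results.MP_29be01_nt.SparseFamilies

open Finset Filter Polynomial
open Pool.Agent.X20.Tr
open Pool.Agent.Results.MP_29be01_nt.PolynomialFamilies (boxCount boxModel)

/-- `n` is exceptional for the family `y ^ 2 = x ^ 3 + a(t) x + b(t)`: for some `K ≤ n ^ δ` and some product of `r` intervals
the number of the `k < K` such that the angles of the curve with `t = n` at the `r` consecutive primes with the numbers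
`k, ..., k + r - 1` are in the intervals differs from the expected number by more than
`C K ^ (1 / 2 + ε) (1 + log n) ^ (1 / 2)` -/
def Bad (r : ℕ) (a b : ℤ[X]) (ε C δ : ℝ) (n : ℕ) : Prop :=
  ∃ K : ℕ, (K : ℝ) ≤ (n : ℝ) ^ δ ∧ ∃ I : Fin r → Set ℝ, (∀ i, (I i).OrdConnected) ∧
    C * ((K : ℝ) ^ (1 / 2 + ε) * √(1 + Real.log n)) <
      |(boxCount (a.eval (n : ℤ)) (b.eval (n : ℤ)) I K : ℝ) - boxModel a b I K|

lemma pow_mono (K : ℕ) {ε ε' : ℝ} (hε' : 0 < ε') (hε : ε' ≤ ε) : (K : ℝ) ^ (1 / 2 + ε') ≤ (K : ℝ) ^ (1 / 2 + ε) := by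
  rcases Nat.eq_zero_or_pos K with rfl | hx
  · rw [Nat.cast_zero, Real.zero_rpow (by linarith), Real.zero_rpow (by linarith)]
  · exact Real.rpow_le_rpow_of_exponent_le (by exact_mod_cast hx) (by linarith)

lemma err_mono (K : ℕ) {ε ε' C : ℝ} (hC : 0 ≤ C) (hε' : 0 < ε') (hε : ε' ≤ ε) (y : ℝ) :
    C * ((K : ℝ) ^ (1 / 2 + ε') * √y) ≤ C * ((K : ℝ) ^ (1 / 2 + ε) * √y) :=
  mul_le_mul_of_nonneg_left (mul_le_mul_of_nonneg_right (pow_mono K hε' hε) (Real.sqrt_nonneg _)) hC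

lemma sqrt_log {x y : ℝ} (hy : 1 ≤ y) (hxy : x ≤ 4 * y) (hx : 1 ≤ x) :
    √(1 + Real.log x) ≤ 2 * √(1 + Real.log y) := by
  have h1 : Real.log x ≤ Real.log 4 + Real.log y := by
    rw [← Real.log_mul (by norm_num) (by linarith)]
    exact Real.log_le_log (by linarith) hxy
  have h2 : Real.log 4 ≤ 2 := by
    have h3 : Real.log 4 = 2 * Real.log 2 := by
      rw [show (4 : ℝ) = 2 ^ 2 by norm_num, Real.log_pow]
      norm_num
    have := Real.log_two_lt_d9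
    linarith
  have h4 : 0 ≤ Real.log y := Real.log_nonneg hy
  have h5 : 1 + Real.log x ≤ 2 ^ 2 * (1 + Real.log y) := by linarith
  calc √(1 + Real.log x) ≤ √(2 ^ 2 * (1 + Real.log y)) := Real.sqrt_le_sqrt h5
    _ = 2 * √(1 + Real.log y) := by
        rw [Real.sqrt_mul (by norm_num), Real.sqrt_sq (by norm_num)]

open Classical in
/-- For every real `c > 1` there are `κ > 0` and a set `E` of real numbers of Hausdorff dimension at most `1 - κ` such
that for all `r ≥ 1` and `ε > 0` there are `C, δ > 0` such that for every real `α > 0` outside `E` and ALL polynomials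
`a, b ∈ ℤ[T]`, all but at most `N ^ (1 - δ)` of the `n ≤ N` (`N` large) are such that `m = ⌊α n ^ c⌋` is not `Bad`: for every
`K ≤ m ^ δ` and every product of `r` intervals, the number of the `k < K` such that the Frobenius angles of
`y ^ 2 = x ^ 3 + a(m) x + b(m)` at the `r` consecutive primes with the numbers `k, ..., k + r - 1` are in the intervals
differs from the expected number by at most `C K ^ (1 / 2 + ε) (1 + log m) ^ (1 / 2)`. -/
theorem result (c : ℝ) (hc : 1 < c) : ∃ κ : ℝ, 0 < κ ∧ κ < 1 ∧ ∃ E : Set ℝ, dimH E ≤ ENNReal.ofReal (1 - κ) ∧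
    ∀ (r : ℕ) (ε : ℝ), 1 ≤ r → 0 < ε → ∃ C δ : ℝ, 0 < C ∧ 0 < δ ∧ ∀ α : ℝ, 0 < α → α ∉ E →
      ∀ a b : ℤ[X], ∃ N₀ : ℕ, ∀ N : ℕ, N₀ ≤ N →
        (((Icc 1 N).filter (fun n : ℕ => Bad r a b ε C δ ⌊α * (n : ℝ) ^ c⌋₊)).card : ℝ) ≤ (N : ℝ) ^ (1 - δ) := by
  obtain ⟨κ, hκ0, hκ1, H⟩ := sparse_pow c hc
  have hin : ∀ k : ℕ, (0 : ℝ) < 1 / ((k : ℝ) + 1) := fun k => by positivity
  choose d C hd hC hA using fun (r k : ℕ) => PolynomialFamilies.result (r + 1) (Nat.le_add_left 1 r)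
    (1 / ((k : ℝ) + 1)) (hin k)
  have hcm := countable_polys
  have hcount : Countable ((ℤ[X] × ℤ[X]) × (ℕ × ℕ)) := inferInstance
  obtain ⟨E, hE, hh⟩ := H ((ℤ[X] × ℤ[X]) × (ℕ × ℕ))
    (fun j a => 0 ≤ a ∧ Bad (j.2.1 + 1) j.1.1 j.1.2 (1 / ((j.2.2 : ℝ) + 1)) (2 * C j.2.1 j.2.2)
          (min (d j.2.1 j.2.2) (1 / 2)) a.toNat)
  refine ⟨κ, hκ0, hκ1, E, hE, fun r' ε hr' hε => ?_⟩
  obtain ⟨r, rfl⟩ : ∃ r : ℕ, r' = r + 1 := ⟨r' - 1, by omega⟩
  obtain ⟨k, hk⟩ := exists_nat_one_div_lt hε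
  have hdk : 0 < min (d r k) (1 / 2) := lt_min (hd r k) (by norm_num)
  have hdk2 : min (d r k) (1 / 2) ≤ 1 / 2 := min_le_right _ _
  have hdk3 : min (d r k) (1 / 2) ≤ d r k := min_le_left _ _
  obtain ⟨δ, hδ⟩ : ∃ δ : ℝ, δ = min κ (min (d r k) (1 / 2)) / 4 := ⟨_, rfl⟩
  have hδ0 : 0 < δ := by rw [hδ]; exact div_pos (lt_min hκ0 hdk) (by norm_num)
  have h4κ : 4 * δ ≤ κ := by
    rw [hδ]
    linarith [min_le_left κ (min (d r k) (1 / 2))]
  have h4d : 4 * δ ≤ min (d r k) (1 / 2) := by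
    rw [hδ]
    linarith [min_le_right κ (min (d r k) (1 / 2))]
  have hCk := hC r k
  refine ⟨2 * C r k, δ, by linarith, hδ0, fun α hα hαE f g => ?_⟩
  obtain ⟨N₀, hN₀⟩ := hh α hα hαE ((f, g), (r, k)) 0 1 (Or.inl rfl) (min (d r k) (1 / 2)) (C r k) hdk hdk2
    ⟨1, fun N hN => by
      have hNb : (1 : ℝ) ≤ N := by exact_mod_cast hN
      obtain ⟨F, hF1, hF2⟩ := hA r k f g N hN
      refine le_trans ?_ (hF1.trans (mul_le_mul_of_nonneg_left
        (Real.rpow_le_rpow_of_exponent_le hNb (by linarith)) hCk.le))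
      rw [Nat.cast_le, ← Set.ncard_coe_finset F, ← Set.ncard_image_of_injective (F : Set ℕ) (Nat.cast_injective (R := ℤ))]
      refine Set.ncard_le_ncard ?_ ((F.finite_toSet).image _)
      rintro a ⟨⟨h0, K, h1, I, h2, h3⟩, h5, h6⟩
      obtain ⟨n, rfl⟩ := Int.eq_ofNat_of_zero_le h0
      rw [Nat.abs_cast] at h5 h6
      rw [Int.toNat_natCast] at h1 h3
      refine ⟨n, ?_, rfl⟩
      by_contra hn
      have hnN : n ≤ N := by exact_mod_cast h6
      have hn1 : (1 : ℝ) ≤ n := by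
        have : 1 ≤ n := by omega
        exact_mod_cast this
      have hN4 : (N : ℝ) ≤ 4 * n := by
        have : N ≤ 4 * n := by omega
        exact_mod_cast this
      have h7 := hF2 n hnN (fun h => hn (by exact_mod_cast h)) K (h1.trans
        ((Real.rpow_le_rpow_of_exponent_le hn1 hdk3).trans
          (Real.rpow_le_rpow (by linarith) (by exact_mod_cast hnN) (hd r k).le))) I h2
      refine absurd (lt_of_lt_of_le h3 h7) (not_lt.2 ?_)
      rw [show 2 * C r k * ((K : ℝ) ^ (1 / 2 + 1 / ((k : ℝ) + 1)) * √(1 + Real.log n)) =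
        C r k * ((K : ℝ) ^ (1 / 2 + 1 / ((k : ℝ) + 1)) * (2 * √(1 + Real.log n))) by ring]
      exact mul_le_mul_of_nonneg_left (mul_le_mul_of_nonneg_left (sqrt_log hn1 hN4 hNb) (by positivity)) hCk.le⟩
    δ hδ0.le (by linarith) (by linarith)
  refine ⟨N₀, fun N hN => le_trans ?_ (hN₀ N hN)⟩
  rw [Nat.cast_le]
  refine card_le_card fun n hn => ?_
  replace hn := mem_filt.1 hn
  refine mem_filt.2 ⟨hn.1, ?_⟩
  have e : (0 : ℤ) + 1 * ((⌊α * (n : ℝ) ^ c⌋₊ : ℕ) : ℤ) = ((⌊α * (n : ℝ) ^ c⌋₊ : ℕ) : ℤ) := by ring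
  show 0 ≤ (0 : ℤ) + 1 * ((⌊α * (n : ℝ) ^ c⌋₊ : ℕ) : ℤ) ∧
    Bad (r + 1) f g (1 / ((k : ℝ) + 1)) (2 * C r k) (min (d r k) (1 / 2)) ((0 : ℤ) + 1 * ((⌊α * (n : ℝ) ^ c⌋₊ : ℕ) : ℤ)).toNat
  rw [e, Int.toNat_natCast]
  refine ⟨Nat.cast_nonneg _, ?_⟩
  obtain ⟨K, h1, I, h2, h3⟩ := hn.2
  refine ⟨K, ?_, I, h2, lt_of_le_of_lt (err_mono K (by linarith) (hin k) hk.le _) h3⟩
  rcases Nat.eq_zero_or_pos ⌊α * (n : ℝ) ^ c⌋₊ with hm | hm
  · rw [hm, Nat.cast_zero, Real.zero_rpow hδ0.ne'] at h1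
    rw [hm, Nat.cast_zero, Real.zero_rpow hdk.ne']
    exact h1
  · exact h1.trans (Real.rpow_le_rpow_of_exponent_le (by exact_mod_cast hm) (by linarith))

end Pool.Agent.Results.MP_29be01_nt.SparseFamilies
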