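import Pool.Agent.X35.OR.Patt
import Pool.Agent.X35.GM.Vec
import Pool.Agent.W406.TW.Ang

/-!
# The Frobenius angles at `s` consecutive primes of the twists by `f_1(n), ..., f_r(n)` of `r` elliptic curves, for ALL integers `n` near `α v_i`:
the joint law is the symmetrised law of the curves, with square-root error, for all boxes
-/

set_option autoImplicit false

namespace Pool.Agent.Results.MP_29be01_nt.TwistsByPolynomials

open Finset Polynomial

/-- The trace of Frobenius of `y² = x³ + A x + B` at an odd prime `p` of good reduction, `- ∑_{x mod p} ((x³ + A x + B) / p)`. -/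
def ap (A B : ℤ) (p : ℕ) : ℤ := -∑ x ∈ range p, jacobiSym ((x : ℤ) ^ 3 + A * x + B) p

/-- The Frobenius angle in `[0, 1]` of the curve `y² = x³ + A x + B` at the prime `p`: it is `θ` with
`2 p ^ (1 / 2) cos (π θ) = a_p`, and `1 / 2` if `p ∣ 2 (4 A³ + 27 B²)`. -/
noncomputable def angle (A B : ℤ) (p : ℕ) : ℝ :=
  if (p : ℤ) ∣ 2 * (4 * A ^ 3 + 27 * B ^ 2) then 1 / 2
  else Real.arccos ((ap A B p : ℝ) / (2 * Real.sqrt p)) / Real.pi

open Classical in
/-- The number of the `k < K` such that for all `i < r` the angles of the curve `y² = x³ + A_i x + B_i` at the `s` consecutive primes with the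
numbers `k, ..., k + s - 1` (the primes are numbered from `0`) are in `I 0 i, ..., I (s - 1) i`. -/
noncomputable def boxCount {s r : ℕ} (A B : Fin r → ℤ) (I : Fin s → Fin r → Set ℝ) (K : ℕ) : ℕ :=
  ((range K).filter (fun k => ∀ (j : Fin s) (i : Fin r), angle (A i) (B i) (Nat.nth Nat.Prime (k + j)) ∈ I j i)).card

open Classical in
/-- The mean of the indicator functions of `S` at the angle `θ` of `y² = x³ + A x + B` at `p` and at `1 - θ`. -/
noncomputable def symmetric (A B : ℤ) (p : ℕ) (S : Set ℝ) : ℝ :=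
  ((if angle A B p ∈ S then 1 else 0) + (if 1 - angle A B p ∈ S then 1 else 0)) / 2

/-- The symmetrised count: the sum over `k < K` of the product over the `s` primes and the `r` curves. -/
noncomputable def symmetrised {s r : ℕ} (A B : Fin r → ℤ) (I : Fin s → Fin r → Set ℝ) (K : ℕ) : ℝ :=
  ∑ k ∈ range K, ∏ j : Fin s, ∏ i : Fin r, symmetric (A i) (B i) (Nat.nth Nat.Prime (k + j)) (I j i)

theorem ap_congr (p : ℕ) {A A' B B' : ℤ} (hA : (p : ℤ) ∣ A - A') (hB : (p : ℤ) ∣ B - B') : ap A B p = ap A' B' p := by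
  unfold ap
  congr 1
  apply sum_congr rfl
  intro x _
  apply jacobiSym.mod_left'
  refine Int.ModEq.symm ((Int.modEq_iff_dvd).2 ?_)
  have e : (x : ℤ) ^ 3 + A * x + B - ((x : ℤ) ^ 3 + A' * x + B') = (A - A') * x + (B - B') := by ring
  rw [e]
  exact dvd_add (hA.mul_right _) hB

theorem angle_congr (p : ℕ) {A A' B B' : ℤ} (hA : (p : ℤ) ∣ A - A') (hB : (p : ℤ) ∣ B - B') :
    angle A B p = angle A' B' p := by
  unfold angle
  rw [ap_congr p hA hB]
  have h : (p : ℤ) ∣ 2 * (4 * A ^ 3 + 27 * B ^ 2) - 2 * (4 * A' ^ 3 + 27 * B' ^ 2) := by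
    have e : 2 * (4 * A ^ 3 + 27 * B ^ 2) - 2 * (4 * A' ^ 3 + 27 * B' ^ 2) =
      (A - A') * (8 * (A ^ 2 + A * A' + A' ^ 2)) + (B - B') * (54 * (B + B')) := by ring
    rw [e]
    exact dvd_add (hA.mul_right _) (hB.mul_right _)
  have h2 := dvd_iff_dvd_of_dvd_sub h
  by_cases h3 : (p : ℤ) ∣ 2 * (4 * A ^ 3 + 27 * B ^ 2)
  · rw [if_pos h3, if_pos (h2.mp h3)]
  · rw [if_neg h3, if_neg (fun h4 => h3 (h2.mpr h4))]

/-- the angle of a twist by `D` with a given type modulo `p` -/
theorem angle_tw (A B D : ℤ) {p : ℕ} (hp : p.Prime) (hp2 : p ≠ 2) (b : Bool) (h : Pool.Agent.X35.OR.Tp p b D) :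
    angle (A * D ^ 2) (B * D ^ 3) p = if b = true then angle A B p else 1 - angle A B p := by
  have := Fact.mk hp
  have hD : (D : ZMod p) ≠ 0 := by
    unfold Pool.Agent.X35.OR.Tp at h
    split_ifs at h with hb
    · exact h.1
    · intro h0
      rw [h0] at h
      exact h ⟨0, by simp⟩
  have hpD : ¬ (p : ℤ) ∣ D := fun h' => hD ((ZMod.intCast_zmod_eq_zero_iff_dvd D p).2 h')
  have hpp : Prime (p : ℤ) := Nat.prime_iff_prime_int.1 hp
  have hdisc : (p : ℤ) ∣ 2 * (4 * (A * D ^ 2) ^ 3 + 27 * (B * D ^ 3) ^ 2) ↔ (p : ℤ) ∣ 2 * (4 * A ^ 3 + 27 * B ^ 2) := by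
    have e : 2 * (4 * (A * D ^ 2) ^ 3 + 27 * (B * D ^ 3) ^ 2) = D ^ 6 * (2 * (4 * A ^ 3 + 27 * B ^ 2)) := by ring
    rw [e, hpp.dvd_mul]
    constructor
    · rintro (h' | h')
      · exact absurd (hpp.dvd_of_dvd_pow h') hpD
      · exact h'
    · exact Or.inr
  have hap : ap (A * D ^ 2) (B * D ^ 3) p = jacobiSym D p * ap A B p := Pool.Agent.W406.TW.ap_twist A B D hp hp2
  unfold angle
  by_cases h3 : (p : ℤ) ∣ 2 * (4 * A ^ 3 + 27 * B ^ 2)
  · rw [if_pos h3, if_pos (hdisc.2 h3)]
    split_ifs <;> norm_num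
  · rw [if_neg h3, if_neg (fun h4 => h3 (hdisc.1 h4)), hap]
    unfold Pool.Agent.X35.OR.Tp at h
    split_ifs at h with hb
    · rw [if_pos hb]
      have hj : jacobiSym D p = 1 := by
        rw [← jacobiSym.legendreSym.to_jacobiSym]
        exact (legendreSym.eq_one_iff p hD).2 h.2
      rw [hj, one_mul]
    · rw [if_neg hb]
      have hj : jacobiSym D p = -1 := by
        rw [← jacobiSym.legendreSym.to_jacobiSym]
        exact (legendreSym.eq_neg_one_iff p).2 h
      rw [hj]
      push_cast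
      rw [neg_one_mul, neg_div, Real.arccos_neg, sub_div, div_self Real.pi_ne_zero]

open Classical in
/-- the proportion for the twists -/
theorem prop_eval {r : ℕ} (A B : Fin r → ℤ) (f : Fin r → ℤ[X]) (M : ℝ) (hM0 : 0 ≤ M)
    (hM : ∀ p : ℕ, p.Prime → p ≠ 2 → ∀ b : Fin r → Bool,
      |(((range p).filter (fun t : ℕ => ∀ i, Pool.Agent.X35.OR.Tp p (b i) ((f i).eval (t : ℤ)))).card : ℝ) / p - 1 / 2 ^ r| ≤ M / √p)
    (p : ℕ) (hp : p.Prime) (J : Fin r → Set ℝ) :
    |(((range p).filter (fun t : ℕ => ∀ i, angle (A i * ((f i).eval (t : ℤ)) ^ 2) (B i * ((f i).eval (t : ℤ)) ^ 3) p ∈ J i)).card : ℝ) / p -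
      ∏ i, symmetric (A i) (B i) p (J i)| ≤ 2 * 2 ^ r * M / √p := by
  have hp0 : (0 : ℝ) < p := by exact_mod_cast hp.pos
  by_cases hp2 : p = 2
  · -- all angles are `1 / 2`
    have hang : ∀ A B : ℤ, angle A B p = 1 / 2 := by
      intro A B
      unfold angle
      rw [if_pos (by rw [hp2]; exact Dvd.intro _ rfl)]
    have e1 : ((range p).filter (fun t : ℕ => ∀ i, angle (A i * ((f i).eval (t : ℤ)) ^ 2) (B i * ((f i).eval (t : ℤ)) ^ 3) p ∈ J i)) =
        if (∀ i, (1 / 2 : ℝ) ∈ J i) then range p else ∅ := by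
      simp only [hang]
      split_ifs with h
      · rw [filter_true_of_mem]
        intro _ _
        exact h
      · rw [filter_false_of_mem]
        intro _ _
        exact h
    have e2 : ∏ i, symmetric (A i) (B i) p (J i) = if (∀ i, (1 / 2 : ℝ) ∈ J i) then 1 else 0 := by
      unfold symmetric
      simp only [hang]
      split_ifs with h
      · apply prod_eq_one
        intro i _
        rw [if_pos (h i), if_pos (by norm_num; exact h i)]
        norm_num
      · push Not at h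
        obtain ⟨i, hi⟩ := h
        apply prod_eq_zero (mem_univ i)
        rw [if_neg hi, if_neg (by norm_num; exact hi)]
        norm_num
    rw [e1, e2]
    have h0 : (0 : ℝ) ≤ 2 * 2 ^ r * M / √p := by positivity
    split_ifs
    · rw [card_range, div_self hp0.ne', sub_self, abs_zero]
      exact h0
    · simp only [card_empty, Nat.cast_zero, zero_div, sub_self, abs_zero]
      exact h0
  · set c : (Fin r → Bool) → ℝ := fun b => ∏ i, (if (if b i = true then angle (A i) (B i) p else 1 - angle (A i) (B i) p) ∈ J i then (1 : ℝ) else 0) with hc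
    set S : (Fin r → Bool) → ℕ → ℝ := fun b t => if ∀ i, Pool.Agent.X35.OR.Tp p (b i) ((f i).eval (t : ℤ)) then 1 else 0 with hS
    set T : ℕ → ℝ := fun t => if ∀ i, angle (A i * ((f i).eval (t : ℤ)) ^ 2) (B i * ((f i).eval (t : ℤ)) ^ 3) p ∈ J i then 1 else 0 with hT
    have hc01 : ∀ b, 0 ≤ c b ∧ c b ≤ 1 := by
      intro b
      constructor
      · exact prod_nonneg fun i _ => by split_ifs <;> norm_num
      · exact prod_le_one (fun i _ => by split_ifs <;> norm_num) fun i _ => by split_ifs <;> norm_num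
    have hpt : ∀ t : ℕ, |T t - ∑ b, S b t * c b| ≤ 1 - ∑ b, S b t := by
      intro t
      by_cases hex : ∃ b : Fin r → Bool, ∀ i, Pool.Agent.X35.OR.Tp p (b i) ((f i).eval (t : ℤ))
      · obtain ⟨b, hb⟩ := hex
        have huniq : ∀ b' ≠ b, S b' t = 0 := by
          intro b' hne
          rw [hS]
          simp only
          rw [if_neg]
          intro hb'
          apply hne
          funext i
          have h1 := hb i
          have h2 := hb' i
          unfold Pool.Agent.X35.OR.Tp at h1 h2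
          cases hbi : b i <;> cases hbi' : b' i <;> rw [hbi] at h1 <;> rw [hbi'] at h2 <;> simp at h1 h2 ⊢
          · exact absurd h2.2 h1
          · exact absurd h1.2 h2
        have h1 : S b t = 1 := if_pos hb
        have e1 : ∑ b', S b' t * c b' = c b := by
          rw [sum_eq_single b (fun b' _ hne => by rw [huniq b' hne, zero_mul]) (fun h => absurd (mem_univ _) h), h1, one_mul]
        have e2 : ∑ b', S b' t = 1 := by
          rw [sum_eq_single b (fun b' _ hne => huniq b' hne) (fun h => absurd (mem_univ _) h), h1]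
        rw [e1, e2, sub_self]
        have e3 : T t = c b := by
          rw [hT, hc]
          simp only
          have hiff : (∀ i, angle (A i * ((f i).eval (t : ℤ)) ^ 2) (B i * ((f i).eval (t : ℤ)) ^ 3) p ∈ J i) ↔
              ∀ i, (if b i = true then angle (A i) (B i) p else 1 - angle (A i) (B i) p) ∈ J i := by
            apply forall_congr'
            intro i
            rw [angle_tw (A i) (B i) _ hp hp2 (b i) (hb i)]
          by_cases h : ∀ i, (if b i = true then angle (A i) (B i) p else 1 - angle (A i) (B i) p) ∈ J i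
          · rw [if_pos (hiff.2 h), prod_eq_one]
            intro i _
            exact if_pos (h i)
          · rw [if_neg (fun h' => h (hiff.1 h'))]
            push Not at h
            obtain ⟨i, hi⟩ := h
            rw [prod_eq_zero (mem_univ i)]
            exact if_neg hi
        rw [e3, sub_self, abs_zero]
      · push Not at hex
        have h0 : ∀ b, S b t = 0 := by
          intro b
          rw [hS]
          simp only
          rw [if_neg]
          intro h
          obtain ⟨i, hi⟩ := hex b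
          exact hi (h i)
        simp only [h0, zero_mul, sum_const_zero, sub_zero]
        rw [hT]
        simp only
        split_ifs <;> norm_num
    have hN : ∀ b, (((range p).filter (fun t : ℕ => ∀ i, Pool.Agent.X35.OR.Tp p (b i) ((f i).eval (t : ℤ)))).card : ℝ) = ∑ t ∈ range p, S b t := by
      intro b
      rw [card_filter]
      push_cast
      rfl
    have hNT : (((range p).filter (fun t : ℕ => ∀ i, angle (A i * ((f i).eval (t : ℤ)) ^ 2) (B i * ((f i).eval (t : ℤ)) ^ 3) p ∈ J i)).card : ℝ) =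
        ∑ t ∈ range p, T t := by
      rw [card_filter]
      push_cast
      rfl
    have hb : ∀ b, |(∑ t ∈ range p, S b t) / p - 1 / 2 ^ r| ≤ M / √p := by
      intro b
      rw [← hN b]
      exact hM p hp hp2 b
    -- the first comparison
    have h1 : |(∑ t ∈ range p, T t) / p - ∑ b, (∑ t ∈ range p, S b t) / p * c b| ≤ 2 ^ r * M / √p := by
      have e1 : (∑ t ∈ range p, T t) / p - ∑ b, (∑ t ∈ range p, S b t) / p * c b = (∑ t ∈ range p, (T t - ∑ b, S b t * c b)) / p := by
        rw [sum_sub_distrib, sub_div, sum_comm]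
        congr 1
        rw [sum_div]
        apply sum_congr rfl
        intro b _
        rw [← sum_mul]
        ring
      rw [e1, abs_div, abs_of_pos hp0]
      have e2 : |∑ t ∈ range p, (T t - ∑ b, S b t * c b)| ≤ ∑ t ∈ range p, (1 - ∑ b, S b t) :=
        (abs_sum_le_sum_abs _ _).trans (sum_le_sum fun t _ => hpt t)
      have e3 : (∑ t ∈ range p, (1 - ∑ b, S b t)) / p = ∑ b : Fin r → Bool, (1 / 2 ^ r - (∑ t ∈ range p, S b t) / p) := by
        rw [sum_sub_distrib, sum_sub_distrib, sum_const, card_range, nsmul_eq_mul, mul_one, sub_div, div_self hp0.ne', sum_comm, sum_div]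
        congr 1
        rw [sum_const, card_univ, Fintype.card_fun, Fintype.card_bool, Fintype.card_fin, nsmul_eq_mul]
        push_cast
        field_simp
      calc |∑ t ∈ range p, (T t - ∑ b, S b t * c b)| / p ≤ (∑ t ∈ range p, (1 - ∑ b, S b t)) / p := div_le_div_of_nonneg_right e2 hp0.le
        _ = ∑ b : Fin r → Bool, (1 / 2 ^ r - (∑ t ∈ range p, S b t) / p) := e3
        _ ≤ ∑ _b : Fin r → Bool, M / √p := sum_le_sum fun b _ => by
            have := (abs_le.1 (hb b)).1
            linarith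
        _ = 2 ^ r * M / √p := by
            rw [sum_const, card_univ, Fintype.card_fun, Fintype.card_bool, Fintype.card_fin, nsmul_eq_mul]
            push_cast
            ring
    have h2 : |∑ b, (∑ t ∈ range p, S b t) / p * c b - ∑ b, 1 / 2 ^ r * c b| ≤ 2 ^ r * M / √p := by
      rw [← sum_sub_distrib]
      refine (abs_sum_le_sum_abs _ _).trans ?_
      calc ∑ b, |(∑ t ∈ range p, S b t) / p * c b - 1 / 2 ^ r * c b| ≤ ∑ _b : Fin r → Bool, M / √p := sum_le_sum fun b _ => by
            rw [← sub_mul, abs_mul, abs_of_nonneg (hc01 b).1]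
            have h3 := hb b
            have h4 := abs_nonneg ((∑ t ∈ range p, S b t) / p - 1 / 2 ^ r)
            have h5 := (hc01 b).2
            nlinarith [(hc01 b).1]
        _ = 2 ^ r * M / √p := by
            rw [sum_const, card_univ, Fintype.card_fun, Fintype.card_bool, Fintype.card_fin, nsmul_eq_mul]
            push_cast
            ring
    have h3 : ∑ b, 1 / 2 ^ r * c b = ∏ i, symmetric (A i) (B i) p (J i) := by
      rw [← mul_sum, hc]
      have e4 : ∏ i, symmetric (A i) (B i) p (J i) = (∏ i, ∑ b : Bool, (if (if b = true then angle (A i) (B i) p else 1 - angle (A i) (B i) p) ∈ J i then (1 : ℝ) else 0)) / 2 ^ r := by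
        unfold symmetric
        rw [prod_div_distrib, prod_const, card_univ, Fintype.card_fin]
        congr 1
        apply prod_congr rfl
        intro i _
        rw [Fintype.sum_bool]
        simp
      rw [e4, Finset.prod_univ_sum, Fintype.piFinset_univ]
      ring
    rw [hNT, ← h3]
    have h4 := abs_add_le ((∑ t ∈ range p, T t) / p - ∑ b, (∑ t ∈ range p, S b t) / p * c b) (∑ b, (∑ t ∈ range p, S b t) / p * c b - ∑ b, 1 / 2 ^ r * c b)
    rw [sub_add_sub_cancel] at h4
    have h5 : 2 * 2 ^ r * M / √(p : ℝ) = 2 ^ r * M / √p + 2 ^ r * M / √p := by ring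
    linarith

/-- Let `s ≥ 1`, `r` and `δ > 0` be given. There are `κ > 0` and `C` such that for all reals `v_i ≥ 1` with `∑ v_i ^ (-t) < ∞` for all `t > τ`
(`τ ≥ 0`; for example `v_i = 2 ^ i`, `τ = 0`) and all `θ < 1` there is a set `E` of reals of Hausdorff dimension at most
`(1 - κ + τ) / (1 - θ)` with the following property. For every real `α > 0` outside `E`, ALL `r`-tuples of curves `E_i : y² = x³ + A_i x + B_i`
(`A_i, B_i` integers), ALL `r`-tuples of nonconstant polynomials `f_i ∈ ℤ[T]` whose product has no multiple root, all `i ≥ i₀`, ALL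
integers `n ≥ 0` with `|n - α v_i| ≤ v_i ^ θ`, ALL `K ≤ n ^ κ` and ALL products of `s r` intervals, the number of the `k < K` such that the
angles of the `r` twists `y² = x³ + A_i f_i(n)² x + B_i f_i(n)³` at the `s` consecutive primes with the numbers `k, ..., k + s - 1` are
in the prescribed intervals differs from the symmetrised count for the curves `E_1, ..., E_r` by at most `C K ^ (1 / 2 + δ) (1 + log n) ^ (1 / 2)`. -/
theorem result (s r : ℕ) (hs : 1 ≤ s) (δ : ℝ) (hδ : 0 < δ) :
    ∃ κ C : ℝ, 0 < κ ∧ 0 < C ∧ ∀ (v : ℕ → ℝ) (τ θ : ℝ), (∀ i, 1 ≤ v i) → 0 ≤ τ → θ < 1 →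
      (∀ t : ℝ, τ < t → Summable (fun i => v i ^ (-t))) →
      ∃ E : Set ℝ, dimH E ≤ ENNReal.ofReal ((1 - κ + τ) / (1 - θ)) ∧
        ∀ α : ℝ, 0 < α → α ∉ E → ∀ (A B : Fin r → ℤ) (f : Fin r → ℤ[X]), (∀ i, 1 ≤ (f i).natDegree) →
          ((∏ i, f i).map (Int.castRingHom ℚ)).Separable →
          ∃ i₀ : ℕ, ∀ i : ℕ, i₀ ≤ i → ∀ n : ℕ, |(n : ℝ) - α * v i| ≤ v i ^ θ → ∀ K : ℕ, (K : ℝ) ≤ (n : ℝ) ^ κ →
            ∀ I : Fin s → Fin r → Set ℝ, (∀ j i, (I j i).OrdConnected) →
              |(boxCount (fun i => A i * ((f i).eval (n : ℤ)) ^ 2) (fun i => B i * ((f i).eval (n : ℤ)) ^ 3) I K : ℝ) - symmetrised A B I K| ≤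
                C * ((K : ℝ) ^ (1 / 2 + δ) * √(1 + Real.log n)) := by
  classical
  obtain ⟨κ, C, h1, _, h3, H⟩ := Pool.Agent.X35.GM.vecB s r hs δ hδ
  refine ⟨κ, C + 1, h1, by linarith, fun v τ θ hv1 hτ hθ hv => ?_⟩
  have hcnt : Countable ((Fin r → ℤ) × (Fin r → ℤ) × (Fin r → ℤ[X])) := by
    have : Countable ℤ[X] := Pool.Agent.X35.GM.countable_int_poly
    infer_instance
  obtain ⟨E, hE1, hE2⟩ := H (ι := (Fin r → ℤ) × (Fin r → ℤ) × (Fin r → ℤ[X]))
    (fun c p n i => angle (c.1 i * ((c.2.2 i).eval (n : ℤ)) ^ 2) (c.2.1 i * ((c.2.2 i).eval (n : ℤ)) ^ 3) p)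
    (by
      intro c p n
      funext i
      have e : ((n + p : ℕ) : ℤ) - (n : ℤ) = p := by push_cast; ring
      have hd : (p : ℤ) ∣ (c.2.2 i).eval ((n + p : ℕ) : ℤ) - (c.2.2 i).eval (n : ℤ) := by
        have := (c.2.2 i).sub_dvd_eval_sub ((n + p : ℕ) : ℤ) (n : ℤ)
        rwa [e] at this
      apply angle_congr p
      · have e2 : c.1 i * (c.2.2 i).eval ((n + p : ℕ) : ℤ) ^ 2 - c.1 i * (c.2.2 i).eval (n : ℤ) ^ 2 =
            ((c.2.2 i).eval ((n + p : ℕ) : ℤ) - (c.2.2 i).eval (n : ℤ)) * (c.1 i * ((c.2.2 i).eval ((n + p : ℕ) : ℤ) + (c.2.2 i).eval (n : ℤ))) := by ring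
        rw [e2]
        exact hd.mul_right _
      · have e2 : c.2.1 i * (c.2.2 i).eval ((n + p : ℕ) : ℤ) ^ 3 - c.2.1 i * (c.2.2 i).eval (n : ℤ) ^ 3 =
            ((c.2.2 i).eval ((n + p : ℕ) : ℤ) - (c.2.2 i).eval (n : ℤ)) * (c.2.1 i * ((c.2.2 i).eval ((n + p : ℕ) : ℤ) ^ 2 +
              (c.2.2 i).eval ((n + p : ℕ) : ℤ) * (c.2.2 i).eval (n : ℤ) + (c.2.2 i).eval (n : ℤ) ^ 2)) := by ring
        rw [e2]
        exact hd.mul_right _) v τ θ hv1 hτ hθ hv
  refine ⟨E, hE1, fun α hα hαE A B f hf hsep => ?_⟩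
  obtain ⟨i₁, hi₁⟩ := hE2 α hα hαE ⟨A, B, f⟩
  obtain ⟨M, hM0, hM⟩ := Pool.Agent.X35.OR.patt f hsep hf
  set c : ℝ := 2 * (s * (2 * 2 ^ r * M)) with hc
  have hc0 : 0 ≤ c := by positivity
  obtain ⟨i₂, hi₂⟩ := Pool.Agent.X35.GV.log_large hv1 hτ hθ hv α hα (c ^ 2) 1 one_pos
  refine ⟨max i₁ i₂, fun i hi n hn K hK I hI => ?_⟩
  have h := hi₁ i (le_trans (le_max_left _ _) hi) n hn K hK I hI
  have hlog : c ^ 2 ≤ Real.log n := by
    have en : |(n : ℝ)| = n := abs_of_nonneg (Nat.cast_nonneg n)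
    have := hi₂ i (le_trans (le_max_right _ _) hi) (n : ℤ) (by
      rw [Int.cast_natCast, en]
      exact hn)
    rwa [Int.cast_natCast, en, Real.rpow_one] at this
  have e1 : Pool.Agent.X35.GM.cnt (fun p i => angle (A i * ((f i).eval (n : ℤ)) ^ 2) (B i * ((f i).eval (n : ℤ)) ^ 3) p) I K =
      boxCount (fun i => A i * ((f i).eval (n : ℤ)) ^ 2) (fun i => B i * ((f i).eval (n : ℤ)) ^ 3) I K := rfl
  have h2 : |Pool.Agent.X35.GM.mdl (fun (p n : ℕ) (i : Fin r) => angle (A i * ((f i).eval (n : ℤ)) ^ 2) (B i * ((f i).eval (n : ℤ)) ^ 3) p) I K -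
      symmetrised A B I K| ≤ c * √K := by
    unfold Pool.Agent.X35.GM.mdl symmetrised
    rw [← sum_sub_distrib]
    refine (abs_sum_le_sum_abs _ _).trans ?_
    have h4 : ∀ k ∈ range K, |∏ j : Fin s, Pool.Agent.X35.GM.prp ((fun (p n : ℕ) (i : Fin r) => angle (A i * ((f i).eval (n : ℤ)) ^ 2)
        (B i * ((f i).eval (n : ℤ)) ^ 3) p) (Nat.nth Nat.Prime (k + j))) (Nat.nth Nat.Prime (k + j)) (I j) -
        ∏ j : Fin s, ∏ i : Fin r, symmetric (A i) (B i) (Nat.nth Nat.Prime (k + j)) (I j i)| ≤ s * (2 * 2 ^ r * M) * (1 / √((k : ℝ) + 1)) := by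
      intro k _
      have hk1 : (0 : ℝ) < √((k : ℝ) + 1) := Real.sqrt_pos.2 (by positivity)
      refine (Pool.Agent.X35.OR.prod_diff_le _ _ 1 (2 * 2 ^ r * M * (1 / √((k : ℝ) + 1))) le_rfl (by positivity) (fun j => ?_) (fun j => ?_)
        (fun j => ?_)).trans (le_of_eq (by rw [one_pow]; ring))
      · unfold Pool.Agent.X35.GM.prp
        have hp : (0 : ℝ) < Nat.nth Nat.Prime (k + j) := by exact_mod_cast (Nat.prime_nth_prime (k + j)).pos
        rw [abs_of_nonneg (by positivity), div_le_one hp]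
        have := card_filter_le (range (Nat.nth Nat.Prime (k + j))) (fun t : ℕ => ∀ i : Fin r, angle (A i * ((f i).eval (t : ℤ)) ^ 2)
          (B i * ((f i).eval (t : ℤ)) ^ 3) (Nat.nth Nat.Prime (k + j)) ∈ I j i)
        rw [card_range] at this
        exact_mod_cast this
      · rw [abs_prod]
        apply prod_le_one (fun i _ => abs_nonneg _)
        intro i _
        unfold symmetric
        split_ifs <;> norm_num
      · have hp := Nat.prime_nth_prime (k + j)
        have h5 := prop_eval A B f M hM0 hM (Nat.nth Nat.Prime (k + j)) hp (I j)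
        refine le_trans (le_trans (le_of_eq ?_) h5) ?_
        · unfold Pool.Agent.X35.GM.prp
          congr!
        · have h6 : k + j + 1 ≤ Nat.nth Nat.Prime (k + j) :=
            Pool.Agent.X35.OR.seq_ge (fun k => Nat.nth Nat.Prime k) (Nat.nth_strictMono Nat.infinite_setOfPred_prime) (Nat.prime_nth_prime 0).pos (k + j)
          have h7 : (k : ℝ) + 1 ≤ Nat.nth Nat.Prime (k + j) := by
            have : k + 1 ≤ Nat.nth Nat.Prime (k + j) := by omega
            exact_mod_cast this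
          rw [mul_one_div]
          exact div_le_div_of_nonneg_left (by positivity) hk1 (Real.sqrt_le_sqrt h7)
    refine (sum_le_sum h4).trans ?_
    rw [← mul_sum]
    have h5 := Pool.Agent.X35.OR.sum_inv_sqrt K
    have h6 : 0 ≤ (s : ℝ) * (2 * 2 ^ r * M) := by positivity
    rw [hc]
    nlinarith
  have h5 : c * √K ≤ (K : ℝ) ^ (1 / 2 + δ) * √(1 + Real.log n) := by
    rcases Nat.eq_zero_or_pos K with hK0 | hK0
    · rw [hK0]
      simp only [Nat.cast_zero, Real.sqrt_zero, mul_zero]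
      positivity
    · have hK1 : (1 : ℝ) ≤ K := by exact_mod_cast hK0
      have h6 : √(K : ℝ) ≤ (K : ℝ) ^ (1 / 2 + δ) := by
        rw [Real.sqrt_eq_rpow]
        exact Real.rpow_le_rpow_of_exponent_le hK1 (by linarith)
      have h7 : c ≤ √(1 + Real.log n) := by
        apply Real.le_sqrt_of_sq_le
        linarith
      calc c * √K ≤ √(1 + Real.log n) * (K : ℝ) ^ (1 / 2 + δ) := mul_le_mul h7 h6 (Real.sqrt_nonneg _) (Real.sqrt_nonneg _)
        _ = (K : ℝ) ^ (1 / 2 + δ) * √(1 + Real.log n) := mul_comm _ _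
  have h6 : |(boxCount (fun i => A i * ((f i).eval (n : ℤ)) ^ 2) (fun i => B i * ((f i).eval (n : ℤ)) ^ 3) I K : ℝ) -
      Pool.Agent.X35.GM.mdl (fun (p n : ℕ) (i : Fin r) => angle (A i * ((f i).eval (n : ℤ)) ^ 2) (B i * ((f i).eval (n : ℤ)) ^ 3) p) I K| ≤
      C * ((K : ℝ) ^ (1 / 2 + δ) * √(1 + Real.log n)) := by
    rw [← e1]
    exact h
  have h7 := abs_add_le ((boxCount (fun i => A i * ((f i).eval (n : ℤ)) ^ 2) (fun i => B i * ((f i).eval (n : ℤ)) ^ 3) I K : ℝ) -
      Pool.Agent.X35.GM.mdl (fun (p n : ℕ) (i : Fin r) => angle (A i * ((f i).eval (n : ℤ)) ^ 2) (B i * ((f i).eval (n : ℤ)) ^ 3) p) I K)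
      (Pool.Agent.X35.GM.mdl (fun (p n : ℕ) (i : Fin r) => angle (A i * ((f i).eval (n : ℤ)) ^ 2) (B i * ((f i).eval (n : ℤ)) ^ 3) p) I K -
      symmetrised A B I K)
  rw [sub_add_sub_cancel] at h7
  have e9 : (C + 1) * ((K : ℝ) ^ (1 / 2 + δ) * √(1 + Real.log n)) =
      C * ((K : ℝ) ^ (1 / 2 + δ) * √(1 + Real.log n)) + (K : ℝ) ^ (1 / 2 + δ) * √(1 + Real.log n) := by ring
  linarith

end Pool.Agent.Results.MP_29be01_nt.TwistsByPolynomials
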